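import Pool.Agent.U747.FS.Perm

set_option autoImplicit false

/-!
# Joint symmetry of LR-maxima and RL-maxima on Fishburn permutations
-/

namespace Pool.Agent.Results.MP_0ade3f_co.JointSymmetry

/-- The set `A_n` (with positions and values `0, …, n - 1` in place of `1, …, n`): the permutations
`π` for which there are no `i, j, k` with `i + 1 = j < k` and `π i + 1 = π k < π j`. -/
def A (n : ℕ) : Set (Equiv.Perm (Fin n)) :=
  {π | ¬ ∃ i j k : Fin n, ((i : ℕ) + 1 = j ∧ j < k) ∧ ((π i : ℕ) + 1 = π k ∧ π k < π j)}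

/-- The number of left-to-right maxima. -/
noncomputable def lrmax {n : ℕ} (π : Equiv.Perm (Fin n)) : ℕ := {i | ∀ m, m < i → π m < π i}.ncard

/-- The number of right-to-left maxima. -/
noncomputable def rlmax {n : ℕ} (π : Equiv.Perm (Fin n)) : ℕ := {i | ∀ m, m > i → π m < π i}.ncard

/-- **Joint symmetry.** The statistics `lrmax` and `rlmax` have symmetric joint distribution
on `A_n`. -/
theorem result : ∀ n : ℕ, 1 ≤ n → ∀ a b : ℕ,
    {π | π ∈ A n ∧ lrmax π = a ∧ rlmax π = b}.ncard =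
      {π | π ∈ A n ∧ lrmax π = b ∧ rlmax π = a}.ncard := by
  intro n _ a b
  have h := Pool.Agent.U747.FS.joint n a b
  have hA : ∀ π : Equiv.Perm (Fin n), Pool.Agent.U747.FS.Av π ↔ π ∈ A n := by
    intro π
    unfold Pool.Agent.U747.FS.Av A
    constructor
    · rintro h1 ⟨i, j, k, ⟨h2, h3⟩, h4, h5⟩
      exact h1 i j k h2 h3 h4 h5
    · intro h1 i j k h2 h3 h4 h5
      exact h1 ⟨i, j, k, ⟨h2, h3⟩, h4, h5⟩
  simp only [hA] at h
  exact h

end Pool.Agent.Results.MP_0ade3f_co.JointSymmetry
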